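import Mathlib

set_option autoImplicit false

/-!
# A `34`-orthogonal pair of latin squares of order `6` that is not near-orthogonal after relabelling
-/

namespace Pool.Agent.Results.MP_9a0911_co.NotRelabellable

/-- `L` is a latin square: every row and every column is a bijection. -/
def IsLatin {n : ℕ} (L : Fin n → Fin n → Fin n) : Prop :=
  (∀ i, Function.Bijective (L i)) ∧ ∀ j, Function.Bijective (fun i => L i j)

/-- The pair `(L, M)` is `r`-orthogonal: exactly `r` distinct ordered pairs `(L i j, M i j)` occur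
over all cells. -/
def IsOrthogonalOrder {n : ℕ} (L M : Fin n → Fin n → Fin n) (r : ℕ) : Prop :=
  (Finset.univ.image (fun p : Fin n × Fin n => (L p.1 p.2, M p.1 p.2))).card = r

/-- Rows `i, i'` and columns `j, j'` of `L` form a `2 × 2` latin subsquare. -/
def Sub {n : ℕ} (L : Fin n → Fin n → Fin n) (i i' j j' : Fin n) : Prop :=
  i ≠ i' ∧ j ≠ j' ∧ L i j = L i' j' ∧ L i j' = L i' j ∧ L i j ≠ L i j'

/-- The pair `(L, M)` is near-orthogonal: it is `(n² - 2)`-orthogonal and there are rows `i, i'` and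
columns `j, j'` on which both squares have a `2 × 2` latin subsquare, the two subsquares using the
same two symbols. -/
def NearOrthogonal {n : ℕ} (L M : Fin n → Fin n → Fin n) : Prop :=
  IsOrthogonalOrder L M (n ^ 2 - 2) ∧
    ∃ i i' j j' : Fin n, Sub L i i' j j' ∧ Sub M i i' j j' ∧
      ({L i j, L i j'} : Set (Fin n)) = {M i j, M i j'}

/-- The first square. -/
def L : Fin 6 → Fin 6 → Fin 6 :=
  ![![0, 3, 1, 4, 5, 2],
    ![2, 0, 4, 5, 1, 3],
    ![1, 5, 0, 2, 3, 4],
    ![4, 1, 2, 3, 0, 5],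
    ![3, 2, 5, 0, 4, 1],
    ![5, 4, 3, 1, 2, 0]]

/-- The second square. -/
def M : Fin 6 → Fin 6 → Fin 6 :=
  ![![0, 3, 1, 4, 2, 5],
    ![4, 0, 5, 3, 1, 2],
    ![2, 5, 3, 0, 4, 1],
    ![3, 4, 2, 1, 5, 0],
    ![5, 1, 4, 2, 0, 3],
    ![1, 2, 0, 5, 3, 4]]

theorem L_row : ∀ i, Function.Injective (L i) := by decide +kernel

theorem L_col : ∀ j, Function.Injective (fun i => L i j) := by decide +kernel

theorem M_row : ∀ i, Function.Injective (M i) := by decide +kernel

theorem M_col : ∀ j, Function.Injective (fun i => M i j) := by decide +kernel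

theorem L_latin : IsLatin L :=
  ⟨fun i => Finite.injective_iff_bijective.mp (L_row i),
    fun j => Finite.injective_iff_bijective.mp (L_col j)⟩

theorem M_latin : IsLatin M :=
  ⟨fun i => Finite.injective_iff_bijective.mp (M_row i),
    fun j => Finite.injective_iff_bijective.mp (M_col j)⟩

theorem order : IsOrthogonalOrder L M 34 := by
  unfold IsOrthogonalOrder
  decide +kernel

theorem no_common : ∀ i i' j j' : Fin 6, i ≠ i' → j ≠ j' →
    ¬ (L i j = L i' j' ∧ L i j' = L i' j ∧ M i j = M i' j' ∧ M i j' = M i' j) := by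
  decide +kernel

/-- There are `n` and an `(n² - 2)`-orthogonal pair `(L, M)` of latin squares of order `n` such that
no rows `i ≠ i'` and columns `j ≠ j'` carry a `2 × 2` latin subsquare in both squares; consequently
`(L, σ ∘ M)` is not near-orthogonal for any permutation `σ` of the symbols. -/
theorem result :
    ∃ (n : ℕ) (L M : Fin n → Fin n → Fin n), IsLatin L ∧ IsLatin M ∧
      IsOrthogonalOrder L M (n ^ 2 - 2) ∧
      (¬ ∃ i i' j j' : Fin n, Sub L i i' j j' ∧ Sub M i i' j j') ∧
      ∀ σ : Equiv.Perm (Fin n), ¬ NearOrthogonal L (fun i j => σ (M i j)) := by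
  refine ⟨6, L, M, L_latin, M_latin, order, ?_, ?_⟩
  · rintro ⟨i, i', j, j', ⟨h1, h2, h3, h4, -⟩, ⟨-, -, h5, h6, -⟩⟩
    exact no_common i i' j j' h1 h2 ⟨h3, h4, h5, h6⟩
  · rintro σ ⟨-, i, i', j, j', ⟨h1, h2, h3, h4, -⟩, ⟨-, -, h5, h6, -⟩, -⟩
    exact no_common i i' j j' h1 h2 ⟨h3, h4, σ.injective h5, σ.injective h6⟩

end Pool.Agent.Results.MP_9a0911_co.NotRelabellable
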